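import Pool.Agent.W559.GF.Stm

/-!
# FlatStm: a scheme over a Dedekind domain with an atlas of subrings of a field is flat
-/

set_option autoImplicit false

open AlgebraicGeometry CategoryTheory Limits

namespace Pool.Agent.W177.GF

open Pool.Agent.W559.GF

/-- flatness of a ring homomorphism from a Dedekind domain to a subring of a field -/
lemma ringHom_flat {O F : Type} [CommRing O] [IsDedekindDomain O] [Field F] (A : Subring F)
    (φ : O →+* A) (g : O →+* F) (hg : Function.Injective g) (h : A.subtype.comp φ = g) :
    φ.Flat := by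
  algebraize [φ]
  have hφ : Function.Injective φ := by
    intro x y hxy
    apply hg
    rw [← h]
    simp only [RingHom.comp_apply, hxy]
  have : Module.IsTorsionFree O A := by
    refine ⟨fun r hr x y hxy => ?_⟩
    have hxy' : φ r * x = φ r * y := hxy
    have hr0 : φ r ≠ 0 := by
      intro h0
      exact hr.ne_zero (hφ (by rw [h0, map_zero]))
    exact mul_left_cancel₀ hr0 hxy'
  change Module.Flat O A
  infer_instance

theorem flat : FlatStm := by
  intro O F _ _ _ _ hinj Z f T A hA
  have loc : IsZariskiLocalAtSource (@Flat : MorphismProperty Scheme.{0}) :=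
    HasRingHomProperty.instIsZariskiLocalAtSource (P := @Flat) (Q := RingHom.Flat)
  obtain ⟨η, hη, U, hU, hch⟩ := hA
  rw [IsZariskiLocalAtSource.iff_of_iSup_eq_top (P := @Flat) U hU]
  intro t
  obtain ⟨j, hj, hjU, hjη⟩ := hch t
  have h1 : Spec.map (CommRingCat.ofHom (A t).subtype) ≫ (j ≫ f) =
      Spec.map (CommRingCat.ofHom (algebraMap O F)) := by
    rw [← Category.assoc, hjη, hη]
  rw [← Spec.map_preimage (j ≫ f), ← Spec.map_comp] at h1
  have h2 := Spec.map_injective h1
  have h3 := congrArg CommRingCat.Hom.hom h2
  have h4 : Flat (j ≫ f) := by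
    rw [← Spec.map_preimage (j ≫ f), Flat.SpecMap_iff]
    exact ringHom_flat (A t) (Spec.preimage (j ≫ f)).hom (algebraMap O F) hinj h3
  rw [← hjU, ← Scheme.Hom.isoOpensRange_inv_comp, Category.assoc]
  exact Flat.comp _ _

end Pool.Agent.W177.GF
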